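import Pool.Agent.H37.CNL.Stmts

/-!
Row VLA of board cnl (MP_b57703_ag): the main lemma over an arbitrary base field.
-/

set_option autoImplicit false

namespace Pool.CND

theorem vla_thm (h2 : S_VIS) (h3 : S_VML) (h4 : S_VE1) (h5 : S_VE2) (h6 : S_VE3) : S_VLA := by
  intro p k L G _ _ _ _ _ _ ρ t P Δ z x N C₁ H
  have : CharP k p := H.cv.ch
  obtain ⟨d, n, y, u, hy⟩ := h2 p k L G ρ t P Δ z x N C₁ H
  obtain ⟨Y, g₁, B, hY⟩ := h3 p d k L G ρ t P Δ z x N C₁ n y u H hy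
  obtain ⟨q, hq, hYq, hne, hord, hle⟩ := h4 p d k L G ρ t P Δ z x N C₁ n y u Y g₁ B H hy hY
  have hg := h5 p d k L G ρ t P Δ z x N C₁ n y u q Y g₁ B H hy hY hq hYq
  exact h6 p d k L G ρ t P Δ z x N C₁ n y u q Y g₁ B H hy hY hq hne hord hle hg

end Pool.CND
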